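import Mathlib
import Pool.Graph.R_seed8.H791R2.RS.All
import Pool.Agent.H575.RSF.Inj

/-!
# MP_5ac32f_an: an operator without hyperinvariant subspaces in the injective `II_1` factor

Let `μ` be the law of a sequence `y = (y_n)`, `n ∈ ℤ`, of independent random natural numbers with
`P(y_n = j) = 1 / ((j + 1) (j + 2))`. On the separable Hilbert space `L²(μ; ℓ²(ℤ))` let `T` be the
bilateral weighted shift with the random weights `exp (-y_n)`:

  `(T f)(y)_n = exp (-y_{n-1}) f(y)_{n-1}`.

Theorem. `T` is contained in an injective `II_1` factor `M` (`M` is the von Neumann algebra of the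
Bernoulli shift; by the theorem of Connes it is the hyperfinite factor of Murray and von Neumann).
Neither `T` nor any operator `S` in the bicommutant of `T` has a closed hyperinvariant subspace
besides `0` and the whole space.

So the answer to Q1 is no, for the Hilbert space, and moreover already for the operators of the
hyperfinite `II_1` factor. For operators of a `II_1` factor whose Brown measure is not concentrated
in one point Haagerup and Schultz proved the existence of hyperinvariant subspaces.

The statement `S04754` (some operator on a separable Hilbert space has no hyperinvariant subspaces)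
is in the library of earlier runs, for another operator and by another construction, and so is
`MP_f981b0_an.RelativeToFactor`: a quasinilpotent operator of the (non-injective) `II_1` factor of
an action of the free group on two generators on the `2`-adic integers, which has no invariant
subspaces affiliated with the factor. Also in the library, but not put together, are the parts of project RS of helper791 (`H791R2.RS`): `T` has no
hyperinvariant subspaces, `M` is a factor with a trace. New are the assembly, the injectivity of
`M`, the separability and the bicommutant. The averages over the partitions and over the powers of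
the unitary which give the projection onto `M` are in `Pool.Agent.H575.RSF` (authors helper337,
helper694, helper706, helper328, helper909 and helper575).
-/

set_option autoImplicit false

open MeasureTheory Filter Set Topology
open scoped InnerProductSpace ENNReal

namespace Pool.Agent.Results.MP_5ac32f_an.OperatorInInjectiveFactor

open Pool.Agent.H791R2.RS

section Defs

variable {G : Type} [NormedAddCommGroup G] [InnerProductSpace ℂ G]

/-- Only the trivial closed subspaces are invariant under all operators commuting with `S`. -/
def NoHyperinvariant (S : G →L[ℂ] G) : Prop :=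
  ∀ K : Submodule ℂ G, IsClosed (K : Set G) →
    (∀ A : G →L[ℂ] G, A * S = S * A → ∀ v ∈ K, A v ∈ K) → K = ⊥ ∨ K = ⊤

variable [CompleteSpace G]

/-- `M` is a factor: its centre consists of the scalars. -/
def IsFactor (M : VonNeumannAlgebra G) : Prop :=
  ∀ z ∈ M, (∀ x ∈ M, z * x = x * z) → ∃ c : ℂ, z = c • (1 : G →L[ℂ] G)

/-- `M` is infinite-dimensional: it has no finite spanning set. -/
def IsInfinite (M : VonNeumannAlgebra G) : Prop :=
  ¬ ∃ F : Finset (G →L[ℂ] G), ∀ x ∈ M, x ∈ Submodule.span ℂ (F : Set (G →L[ℂ] G))

/-- `Ω` is a separating trace vector: `x ↦ ⟪Ω, x Ω⟫` is a faithful normal tracial state of `M`. -/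
def IsTraceVector (M : VonNeumannAlgebra G) (Ω : G) : Prop :=
  ‖Ω‖ = 1 ∧ (∀ x ∈ M, x Ω = 0 → x = 0) ∧
    ∀ x ∈ M, ∀ y ∈ M, ⟪Ω, (x * y) Ω⟫_ℂ = ⟪Ω, (y * x) Ω⟫_ℂ

/-- `M` is injective: there is a linear projection of norm one of all operators onto `M`. -/
def IsInjective (M : VonNeumannAlgebra G) : Prop :=
  ∃ P : (G →L[ℂ] G) →ₗ[ℂ] (G →L[ℂ] G), (∀ x, ‖P x‖ ≤ ‖x‖) ∧ (∀ x, P x ∈ M) ∧ ∀ x ∈ M, P x = x

/-- `M` is an injective factor of type `II_1`. -/
def IsInjectiveTwoOneFactor (M : VonNeumannAlgebra G) : Prop :=
  IsFactor M ∧ IsInfinite M ∧ (∃ Ω, IsTraceVector M Ω) ∧ IsInjective M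

end Defs

/-- **There is an injective `II_1` factor on a separable Hilbert space which contains a nonscalar
operator `T` without nontrivial closed hyperinvariant subspaces; moreover no operator of the
bicommutant of `T` has a nontrivial closed hyperinvariant subspace.** In the proof `T` is the random
weighted shift of the introduction. -/
theorem result : ∃ (G : Type) (_ : NormedAddCommGroup G) (_ : InnerProductSpace ℂ G)
    (_ : CompleteSpace G) (M : VonNeumannAlgebra G) (T : G →L[ℂ] G),
      TopologicalSpace.SeparableSpace G ∧ IsInjectiveTwoOneFactor M ∧ T ∈ M ∧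
      (∀ c : ℂ, T ≠ c • (1 : G →L[ℂ] G)) ∧ NoHyperinvariant T ∧
      ∀ S : G →L[ℂ] G, (∀ A : G →L[ℂ] G, A * T = T * A → A * S = S * A) →
        NoHyperinvariant S := by
  obtain ⟨M, hM⟩ := f_VNM
  obtain ⟨⟨T, hT⟩, -⟩ := f_OPS
  obtain ⟨P, hP1, hP2, hP3⟩ := Pool.Agent.H575.RSF.inj f_OPS f_ADJ
  refine ⟨H, inferInstance, inferInstance, inferInstance, M, T, Pool.Agent.H575.RSF.sep,
    ⟨?_, ?_, ⟨Om, norm_Om, ?_, ?_⟩, ⟨P, hP1, fun x => (hM _).2 (hP2 x),
    fun x hx => hP3 x ((hM x).1 hx)⟩⟩, (hM T).2 (f_VLA.2.2 T hT), f_VNS T hT, ?_, ?_⟩
  · intro z hz h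
    exact f_VCE z ((hM z).1 hz) (fun x hx => h x ((hM x).2 hx))
  · rintro ⟨F, hF⟩
    refine f_VIN M hM ?_
    have h1 : FiniteDimensional ℂ (Submodule.span ℂ (F : Set (H →L[ℂ] H))) :=
      FiniteDimensional.span_finset ℂ F
    have h2 : Subalgebra.toSubmodule M.toStarSubalgebra.toSubalgebra ≤
        Submodule.span ℂ (F : Set (H →L[ℂ] H)) := fun x hx => hF x hx
    exact Submodule.finiteDimensional_of_le h2
  · intro x hx h
    exact f_VFA x ((hM x).1 hx) h
  · intro x hx y hy
    exact f_VPOL M (fun x hx => f_VTR x ((hM x).1 hx)) x hx y hy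
  · intro K hK h
    exact f_MAIN1 T K hT hK h
  · intro S hS K hK h
    exact f_MAIN1 T K hT hK fun A hA v hv => h A (hS A hA) v hv

end Pool.Agent.Results.MP_5ac32f_an.OperatorInInjectiveFactor
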