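import Pool.Agent.H272.IS.Hyper
import Pool.Graph.R_seed8.H541R3.HI.Fin

/-!
# MP_5ac32f_an: spaces with a complemented Hilbert space, `L^p[0,1]`, and operators `(R ⊕ 0) + K`

The library (`Pool.Graph.R_seed8.H541R3.HI.Fin`) contains an operator on a separable Hilbert space
which is not a scalar and has no nontrivial closed hyperinvariant subspace. We show that every
separable complex Banach space `F`, reflexive or not, which contains a complemented subspace
isomorphic to `ℓ²`, in particular each of the spaces `L^p[0,1]`, `1 < p < ∞`, carries such an operator,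
and that it can be chosen of a very special form: for every sequence `a n > 0` there are a
decomposition `F = W ⊕ Z`, `W` isomorphic to `ℓ²`, `dim Z = ∞`, an operator `R` on `W`, and an operator
`K` on `F`, the sum of a series of operators of rank one with norms at most `a n`, for which
`(R ⊕ 0) + K` is not a scalar and has no nontrivial closed hyperinvariant subspace. (If `K` has finite
rank then `(R ⊕ 0) + K` has a nontrivial kernel, which is hyperinvariant. So hyperinvariant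
subspaces are lost between the perturbations of finite rank of the operators `R ⊕ 0` and the
perturbations which are nuclear with approximation numbers decreasing as fast as we please.)

Proof. If `T = A B` with `A` injective and `B` with dense range, and `T` has no nontrivial closed
hyperinvariant subspace, then neither has `B A` (`NoHyp.swap`). Let `T` be an injective operator with
dense range on `ℓ²` which is not invertible. There are a quotient `W` of `ℓ²` of infinite dimension and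
an operator `R` on `W` such that `T` has factorisations `T = A B` of this kind through all the spaces
`W ⊕ Z`, `Z` separable and infinite-dimensional, with `B A = (R ⊕ 0) + K` (`main_factor`). And `F` is
isomorphic to `ℓ² ⊕ Z`, `Z = ℓ² ⊕ ker q₀`. That `L^p[0,1]` contains a complemented copy of `ℓ²` is proved in
`Pool.Agent.H272.IS.LpRad`.
-/

set_option autoImplicit false

open Pool.Agent.H272.IS Filter Topology MeasureTheory
open scoped ENNReal

namespace Pool.Agent.Results.MP_5ac32f_an.SpacesWithHilbertSummand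

/-- `T` has a closed hyperinvariant subspace other than `0` and the whole space. -/
def HasHyperinvariant {E : Type} [NormedAddCommGroup E] [NormedSpace ℂ E] (T : E →L[ℂ] E) :
    Prop :=
  ∃ M : Submodule ℂ E, IsClosed (M : Set E) ∧ M ≠ ⊥ ∧ M ≠ ⊤ ∧
    ∀ S : E →L[ℂ] E, S * T = T * S → ∀ x ∈ M, S x ∈ M

/-- `T` is a counterexample: not a scalar multiple of the identity, and without nontrivial closed
hyperinvariant subspaces. -/
def Counterexample {E : Type} [NormedAddCommGroup E] [NormedSpace ℂ E] (T : E →L[ℂ] E) : Prop :=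
  (∀ c : ℂ, T ≠ c • ContinuousLinearMap.id ℂ E) ∧ ¬ HasHyperinvariant T

/-- `F` contains a complemented subspace isomorphic to `X`. -/
def ContainsComplemented (F X : Type) [NormedAddCommGroup F] [NormedSpace ℂ F]
    [NormedAddCommGroup X] [NormedSpace ℂ X] : Prop :=
  ∃ (i : X →L[ℂ] F) (q : F →L[ℂ] X), ∀ x, q (i x) = x

/-- `F` and `X` are isomorphic. -/
def Isomorphic (F X : Type) [NormedAddCommGroup F] [NormedSpace ℂ F]
    [NormedAddCommGroup X] [NormedSpace ℂ X] : Prop := Nonempty (F ≃L[ℂ] X)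

/-- `F` is isomorphic to `L^p[0,1]` for some `1 < p < ∞`. -/
def IsomorphicToLp (F : Type) [NormedAddCommGroup F] [NormedSpace ℂ F] : Prop :=
  ∃ (p : ℝ≥0∞) (_ : Fact (1 ≤ p)), 1 < p ∧ p ≠ ∞ ∧
    Isomorphic F (Lp ℂ p (volume.restrict (Set.Icc (0 : ℝ) 1)))

/-- `K` is the sum of a series of operators `x ↦ f n x • y n` of rank one with
`‖f n‖ * ‖y n‖ ≤ a n`. -/
def RankOneSeries {E : Type} [NormedAddCommGroup E] [NormedSpace ℂ E] (a : ℕ → ℝ)
    (K : E →L[ℂ] E) : Prop :=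
  ∃ (f : ℕ → (E →L[ℂ] ℂ)) (y : ℕ → E), (∀ n, ‖f n‖ * ‖y n‖ ≤ a n) ∧
    ∀ x, HasSum (fun n => f n x • y n) (K x)

/-- `S = (R ⊕ 0) + K` with respect to a decomposition of `F` into a subspace isomorphic to `W` (the
range of `i`) and an infinite-dimensional subspace (the kernel of `q`), where `K` is the sum of a
series of operators of rank one with norms at most `a n`. -/
def SpecialForm (W : Type) [NormedAddCommGroup W] [NormedSpace ℂ W] {F : Type}
    [NormedAddCommGroup F] [NormedSpace ℂ F] (a : ℕ → ℝ) (S : F →L[ℂ] F) : Prop :=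
  ∃ (i : W →L[ℂ] F) (q : F →L[ℂ] W) (R : W →L[ℂ] W) (K : F →L[ℂ] F), (∀ w, q (i w) = w) ∧
    ¬ FiniteDimensional ℂ (LinearMap.ker (q : F →ₗ[ℂ] W)) ∧ RankOneSeries a K ∧
    S = i ∘L (R ∘L q) + K

theorem of_noHyp {E : Type} [NormedAddCommGroup E] [NormedSpace ℂ E] {T : E →L[ℂ] E}
    (h : NoHyp T) : ¬ HasHyperinvariant T := by
  rintro ⟨V, hV, h1, h2, hinv⟩
  rcases h V hV hinv with h3 | h3
  · exact h1 h3
  · exact h2 h3

/-- the starting point: an operator on `ℓ²`, injective, with dense range, not invertible, not a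
scalar, without hyperinvariant subspaces -/
theorem exists_start : ∃ T : L2 →L[ℂ] L2, NoHyp T ∧ (∀ c : ℂ, T ≠ c • (1 : L2 →L[ℂ] L2)) ∧
    Function.Injective T ∧ DenseRange T ∧ ¬ IsUnit T := by
  obtain ⟨T₁, hT₁, hN₁⟩ := Pool.Agent.H541R3.HI.exists_op
  have hns : ∀ c : ℂ, T₁ ≠ c • (1 : Pool.Agent.H270T.H →L[ℂ] Pool.Agent.H270T.H) := by
    rintro c rfl
    apply hT₁
    refine ContinuousLinearMap.ext (fun x => ?_)
    rw [ContinuousLinearMap.mul_apply, ContinuousLinearMap.mul_apply, smul_apply, smul_apply,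
      map_smul]
    rfl
  have hN₁' : NoHyp T₁ := by
    intro V hV hinv
    exact hN₁ V hV (fun A hA => hinv A hA.symm)
  obtain ⟨e⟩ := nonempty_iso Pool.Agent.H541R3.HI.infinite_H
  set T₂ : L2 →L[ℂ] L2 := (e : Pool.Agent.H270T.H →L[ℂ] L2) ∘L
    (T₁ ∘L (e.symm : L2 →L[ℂ] Pool.Agent.H270T.H)) with hT₂
  have hN₂ : NoHyp T₂ := hN₁'.conj _ _ (fun x => e.symm_apply_apply x) (fun y => e.apply_symm_apply y)
  have hT₂a : ∀ y, T₂ y = e (T₁ (e.symm y)) := fun y => rfl
  have hns₂ : ∀ c : ℂ, T₂ ≠ c • (1 : L2 →L[ℂ] L2) := by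
    intro c hc
    apply hns c
    refine ContinuousLinearMap.ext (fun x => ?_)
    have h1 := congrArg (fun L : L2 →L[ℂ] L2 => e.symm (L (e x))) hc
    change e.symm (T₂ (e x)) = e.symm (c • e x) at h1
    rw [hT₂a, LinearIsometryEquiv.symm_apply_apply, LinearIsometryEquiv.symm_apply_apply,
      map_smul, LinearIsometryEquiv.symm_apply_apply] at h1
    exact h1
  obtain ⟨c, hc⟩ := exists_sub_not_isUnit L2_not_fd T₂
  have hN₃ : NoHyp (T₂ - c • (1 : L2 →L[ℂ] L2)) := hN₂.sub_smul_one c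
  have h0 : T₂ - c • (1 : L2 →L[ℂ] L2) ≠ 0 := sub_ne_zero.2 (hns₂ c)
  refine ⟨T₂ - c • (1 : L2 →L[ℂ] L2), hN₃, ?_, hN₃.injective h0, hN₃.denseRange h0, hc⟩
  intro d hd
  apply hns₂ (c + d)
  rw [sub_eq_iff_eq_add] at hd
  rw [hd, add_smul, add_comm]

theorem counterexample_of_factor {E : Type} [NormedAddCommGroup E] [NormedSpace ℂ E]
    {T : L2 →L[ℂ] L2} (hN : NoHyp T) (hns : ∀ c : ℂ, T ≠ c • (1 : L2 →L[ℂ] L2))
    (hd : DenseRange T) {A : E →L[ℂ] L2} {B : L2 →L[ℂ] E} (hAB : A ∘L B = T)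
    (hA : Function.Injective A) (hB : DenseRange B) : NoHyp (B ∘L A) ∧
      ∀ c : ℂ, B ∘L A ≠ c • (1 : E →L[ℂ] E) := by
  subst hAB
  exact ⟨NoHyp.swap hA hB hN, ne_smul_of_swap hd hns⟩

/-- the case `F = ℓ² ⊕ Z` -/
theorem special_form (a : ℕ → ℝ) (ha : ∀ n, 0 < a n)
    (Z : Type) [NormedAddCommGroup Z] [NormedSpace ℂ Z] [CompleteSpace Z]
    [TopologicalSpace.SeparableSpace Z] (hZ : ¬ FiniteDimensional ℂ Z) :
    ∃ (R : L2 →L[ℂ] L2) (K : (L2 × Z) →L[ℂ] (L2 × Z)), Rapid a K ∧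
      NoHyp (R.prodMap (0 : Z →L[ℂ] Z) + K) ∧
      ∀ c : ℂ, R.prodMap (0 : Z →L[ℂ] Z) + K ≠ c • (1 : (L2 × Z) →L[ℂ] (L2 × Z)) := by
  obtain ⟨T, hN, hns, hinj, hd, hu⟩ := exists_start
  obtain ⟨M, hM, hfd, R, hR⟩ := main_factor hinj hd hu a ha
  obtain ⟨A₁, B₁, hA₁, hB₁, hAB₁, hBA₁⟩ := exists_quotient_iso M hfd
  obtain ⟨A, B, hAB, hA, hB, hK⟩ := hR Z hZ
  obtain ⟨h1, h2⟩ := counterexample_of_factor hN hns hd hAB hA hB
  let A' : (L2 × Z) →L[ℂ] ((L2 ⧸ M) × Z) := A₁.prodMap (ContinuousLinearMap.id ℂ Z)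
  let B' : ((L2 ⧸ M) × Z) →L[ℂ] (L2 × Z) := B₁.prodMap (ContinuousLinearMap.id ℂ Z)
  have hA' : ‖A'‖ ≤ 1 := by
    refine ContinuousLinearMap.opNorm_le_bound _ zero_le_one (fun x => ?_)
    rw [one_mul]
    change max ‖A₁ x.1‖ ‖x.2‖ ≤ max ‖x.1‖ ‖x.2‖
    refine max_le_max ?_ le_rfl
    calc ‖A₁ x.1‖ ≤ ‖A₁‖ * ‖x.1‖ := A₁.le_opNorm _
      _ ≤ 1 * ‖x.1‖ := by gcongr
      _ = ‖x.1‖ := one_mul _
  have hB' : ‖B'‖ ≤ 1 := by
    refine ContinuousLinearMap.opNorm_le_bound _ zero_le_one (fun x => ?_)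
    rw [one_mul]
    change max ‖B₁ x.1‖ ‖x.2‖ ≤ max ‖x.1‖ ‖x.2‖
    refine max_le_max ?_ le_rfl
    calc ‖B₁ x.1‖ ≤ ‖B₁‖ * ‖x.1‖ := B₁.le_opNorm _
      _ ≤ 1 * ‖x.1‖ := by gcongr
      _ = ‖x.1‖ := one_mul _
  have hAB' : ∀ x, A' (B' x) = x := fun x => Prod.ext (hAB₁ x.1) rfl
  have hBA' : ∀ y, B' (A' y) = y := fun y => Prod.ext (hBA₁ y.1) rfl
  set K₀ : ((L2 ⧸ M) × Z) →L[ℂ] ((L2 ⧸ M) × Z) := B ∘L A - R.prodMap (0 : Z →L[ℂ] Z) with hK₀
  have hBA : B ∘L A = R.prodMap (0 : Z →L[ℂ] Z) + K₀ := by rw [hK₀]; abel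
  have h3 : B' ∘L ((B ∘L A) ∘L A') =
      (B₁ ∘L (R ∘L A₁)).prodMap 0 + B' ∘L (K₀ ∘L A') := by
    rw [hBA]
    refine ContinuousLinearMap.ext (fun x => ?_)
    change B' ((R.prodMap (0 : Z →L[ℂ] Z)) (A' x) + K₀ (A' x)) =
      ((B₁ ∘L (R ∘L A₁)).prodMap (0 : Z →L[ℂ] Z)) x + B' (K₀ (A' x))
    rw [map_add]
    rfl
  refine ⟨B₁ ∘L (R ∘L A₁), B' ∘L (K₀ ∘L A'), hK.conj A' B' hA' hB', ?_, ?_⟩
  · rw [← h3]
    exact h1.conj A' B' hAB' hBA'
  · intro c hc
    rw [← h3] at hc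
    apply h2 c
    refine ContinuousLinearMap.ext (fun x => ?_)
    have h4 := congrArg (fun L : (L2 × Z) →L[ℂ] (L2 × Z) => A' (L (B' x))) hc
    change A' (B' ((B ∘L A) (A' (B' x)))) = A' (c • B' x) at h4
    rw [hAB', hAB', map_smul, hAB'] at h4
    exact h4

/-- **Theorem.** Let `F` be a separable complex Banach space which contains a complemented subspace
isomorphic to `ℓ²`, or is isomorphic to `L^p[0,1]`, `1 < p < ∞`, and let `a n > 0`. There are a
decomposition of `F` into the direct sum of a subspace isomorphic to `ℓ²` and an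
infinite-dimensional closed subspace `Z`, an operator `R` on `ℓ²` and an operator
`K` on `F`, the sum of a series of operators of rank one with norms at most `a n`, such that the
operator `S = (R ⊕ 0) + K` is not a scalar and has no nontrivial closed hyperinvariant subspace. -/
theorem result (F : Type) [NormedAddCommGroup F] [NormedSpace ℂ F] [CompleteSpace F]
    [TopologicalSpace.SeparableSpace F]
    (hF : ContainsComplemented F (lp (fun _ : ℕ => ℂ) 2) ∨ IsomorphicToLp F)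
    (a : ℕ → ℝ) (ha : ∀ n, 0 < a n) :
    ∃ S : F →L[ℂ] F, SpecialForm (lp (fun _ : ℕ => ℂ) 2) a S ∧ Counterexample S := by
  classical
  have hF' : ContainsComplemented F L2 := by
    rcases hF with hF | ⟨p, i1, hp, hp', ⟨e⟩⟩
    · exact hF
    · obtain ⟨i, q, hqi⟩ := exists_L2_in_Lp p hp hp'
      refine ⟨(e.symm : Lp ℂ p (volume.restrict (Set.Icc (0 : ℝ) 1)) →L[ℂ] F) ∘L i,
        q ∘L (e : F →L[ℂ] Lp ℂ p (volume.restrict (Set.Icc (0 : ℝ) 1))), fun x => ?_⟩
      change q (e (e.symm (i x))) = x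
      rw [ContinuousLinearEquiv.apply_symm_apply]
      exact hqi x
  obtain ⟨i₀, q₀, hqi⟩ := hF'
  obtain ⟨A₂, B₂, hAB₂, hBA₂⟩ := exists_square_iso
  let L : Submodule ℂ F := LinearMap.ker (q₀ : F →ₗ[ℂ] L2)
  have hLc : IsClosed (L : Set F) := q₀.isClosed_ker
  have hLm : ∀ y, y ∈ L ↔ q₀ y = 0 := fun y => Iff.rfl
  have : SecondCountableTopology F := UniformSpace.secondCountable_of_separable F
  have : CompleteSpace L := hLc.completeSpace_coe
  have hZ : ¬ FiniteDimensional ℂ (L2 × L) := by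
    intro hfd
    exact L2_not_fd (FiniteDimensional.of_surjective (LinearMap.fst ℂ L2 L) LinearMap.fst_surjective)
  -- the isomorphism
  let A : (L2 × (L2 × L)) →L[ℂ] F :=
    (i₀ ∘L B₂ ∘L ((ContinuousLinearMap.fst ℂ L2 (L2 × L)).prod
      (ContinuousLinearMap.fst ℂ L2 L ∘L ContinuousLinearMap.snd ℂ L2 (L2 × L)))) +
    (L.subtypeL ∘L ContinuousLinearMap.snd ℂ L2 L ∘L ContinuousLinearMap.snd ℂ L2 (L2 × L))
  have hA : ∀ w m l, A (w, m, l) = i₀ (B₂ (w, m)) + l := fun w m l => rfl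
  let B₃ : F →L[ℂ] L := ((1 : F →L[ℂ] F) - i₀ ∘L q₀).codRestrict L (by
    intro y
    rw [hLm]
    simp [hqi])
  have hB₃ : ∀ y, ((B₃ y : L) : F) = y - i₀ (q₀ y) := fun y => rfl
  let B : F →L[ℂ] (L2 × (L2 × L)) := (ContinuousLinearMap.fst ℂ L2 L2 ∘L (A₂ ∘L q₀)).prod
    ((ContinuousLinearMap.snd ℂ L2 L2 ∘L (A₂ ∘L q₀)).prod B₃)
  have hB : ∀ y, B y = ((A₂ (q₀ y)).1, (A₂ (q₀ y)).2, B₃ y) := fun y => rfl
  have hAB : ∀ y, A (B y) = y := by
    intro y
    rw [hB, hA, hB₃]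
    change i₀ (B₂ (A₂ (q₀ y))) + (y - i₀ (q₀ y)) = y
    rw [hBA₂]
    abel
  have hBA : ∀ p, B (A p) = p := by
    rintro ⟨w, m, l⟩
    have hl : q₀ (l : F) = 0 := (hLm _).1 l.2
    have hq : q₀ (i₀ (B₂ (w, m)) + l) = B₂ (w, m) := by
      rw [map_add, hqi, hl, add_zero]
    rw [hB, hA, hq, hAB₂]
    refine Prod.ext rfl (Prod.ext rfl (Subtype.ext ?_))
    change ((B₃ _ : L) : F) = l
    rw [hB₃, hq]
    abel
  have hκ0 : 0 < ‖B‖ * ‖A‖ + 1 := by
    have := mul_nonneg B.opNorm_nonneg A.opNorm_nonneg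
    linarith
  obtain ⟨R, K, hK, hN, hns⟩ := special_form (fun n => a n / (‖B‖ * ‖A‖ + 1))
    (fun n => div_pos (ha n) hκ0) (L2 × L) hZ
  have hSeq : A ∘L ((R.prodMap (0 : (L2 × L) →L[ℂ] (L2 × L)) + K) ∘L B) =
      (A ∘L ContinuousLinearMap.inl ℂ L2 (L2 × L)) ∘L
        (R ∘L (ContinuousLinearMap.fst ℂ L2 (L2 × L) ∘L B)) + A ∘L (K ∘L B) := by
    refine ContinuousLinearMap.ext (fun y => ?_)
    change A ((R (B y).1, (0 : L2 × L)) + K (B y)) = A (R (B y).1, 0) + A (K (B y))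
    rw [map_add]
  refine ⟨(A ∘L ContinuousLinearMap.inl ℂ L2 (L2 × L)) ∘L
      (R ∘L (ContinuousLinearMap.fst ℂ L2 (L2 × L) ∘L B)) + A ∘L (K ∘L B),
    ⟨A ∘L ContinuousLinearMap.inl ℂ L2 (L2 × L),
    ContinuousLinearMap.fst ℂ L2 (L2 × L) ∘L B, R, A ∘L (K ∘L B), ?_, ?_, ?_, rfl⟩, ?_, ?_⟩
  · intro x
    change (B (A (x, 0))).1 = x
    rw [hBA]
  · intro hfd
    apply L2_not_fd
    let j : L2 →ₗ[ℂ] LinearMap.ker ((ContinuousLinearMap.fst ℂ L2 (L2 × L) ∘L B : F →L[ℂ] L2) :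
        F →ₗ[ℂ] L2) :=
      { toFun := fun m => ⟨A (0, m, 0), by
          change (B (A (0, m, 0))).1 = 0
          rw [hBA]⟩
        map_add' := by
          intro m m'
          apply Subtype.ext
          change A (0, m + m', 0) = A (0, m, 0) + A (0, m', 0)
          rw [← map_add]
          simp
        map_smul' := by
          intro c m
          apply Subtype.ext
          change A (0, c • m, 0) = c • A (0, m, 0)
          rw [← map_smul]
          simp }
    have hj : Function.Injective j := by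
      rw [injective_iff_map_eq_zero]
      intro m hm
      have h5 : A (0, m, 0) = 0 := congrArg Subtype.val hm
      have h6 : B (A (0, m, 0)) = 0 := by rw [h5, map_zero]
      rw [hBA] at h6
      exact congrArg (fun p : L2 × (L2 × L) => p.2.1) h6
    exact FiniteDimensional.of_injective j hj
  · refine hK.conj' B A (b := a) (fun n => ?_)
    have h7 : 0 < a n / (‖B‖ * ‖A‖ + 1) := div_pos (ha n) hκ0
    calc ‖B‖ * ‖A‖ * (a n / (‖B‖ * ‖A‖ + 1)) ≤ (‖B‖ * ‖A‖ + 1) * (a n / (‖B‖ * ‖A‖ + 1)) := by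
          apply mul_le_mul_of_nonneg_right _ h7.le
          linarith
      _ = a n := by field_simp
  · intro c hc
    rw [← hSeq] at hc
    apply hns c
    refine ContinuousLinearMap.ext (fun x => ?_)
    have h4 := congrArg (fun T : F →L[ℂ] F => B (T (A x))) hc
    change B (A ((R.prodMap (0 : (L2 × L) →L[ℂ] (L2 × L)) + K) (B (A x)))) = B (c • A x) at h4
    rw [hBA, hBA, map_smul, hBA] at h4
    exact h4
  · rw [← hSeq]
    exact of_noHyp (hN.conj B A hBA hAB)

end Pool.Agent.Results.MP_5ac32f_an.SpacesWithHilbertSummand
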